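import Pool.Agent.H.MP_d84959_lc.Defs

namespace Pool.Agent.H.MP_d84959_lc

abbrev Node := Fm × Finset ℕ

def WF (B : List Node) (C : Finset ℕ) : Prop :=
  (∀ p ∈ B, ∀ k ∈ p.2, k < B.length) ∧ ∀ k ∈ C, k + 1 < B.length

def Cl (B : List Node) (C : Finset ℕ) (Z : Set Node) : Prop :=
  Z.Nonempty ∧ (∀ p ∈ Z, p ∈ B) ∧ ∀ k ∈ C, ((∃ p ∈ Z, k ∈ p.2) ↔ ∃ p ∈ Z, k + 1 ∈ p.2)

variable {B : List Node} {C : Finset ℕ} {Z : Set Node} {p q : Node} {a b : Fm}

lemma WF.root (φ : Fm) : WF [(φ, {0})] ∅ := by simp [WF]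

lemma WF.notMem (h : WF B C) {T : Finset ℕ} {n : ℕ} (hn : B.length ≤ n) : (a, insert n T) ∉ B :=
  fun hm => absurd (h.1 _ hm n (by simp)) (by omega)

lemma WF.one (h : WF B C) (hp : p ∈ B) (hq : q ∈ B) :
    WF ((a, insert B.length (p.2 ∪ q.2)) :: B) C := by
  refine ⟨?_, fun k hk => by have := h.2 k hk; simp; omega⟩
  rintro r (_ | ⟨_, hr⟩) k hk
  · simp only [Finset.mem_insert, Finset.mem_union] at hk
    rcases hk with rfl | hk | hk
    · simp
    · have := h.1 p hp k hk; simp; omega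
    · have := h.1 q hq k hk; simp; omega
  · have := h.1 r hr k hk; simp; omega

lemma WF.two (h : WF B C) (hp : p ∈ B) :
    WF ((b, insert (B.length + 1) p.2) :: (a, insert B.length p.2) :: B) (insert B.length C) := by
  have h1 := h.one (a := a) hp hp
  have h2 := h1.one (a := b) (List.mem_cons_of_mem _ hp) (List.mem_cons_of_mem _ hp)
  simp only [Finset.union_self, List.length_cons] at h1 h2
  refine ⟨h2.1, fun k hk => ?_⟩
  rcases Finset.mem_insert.1 hk with rfl | hk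
  · simp
  · exact h2.2 k hk

lemma Cl.old (h : Cl (q :: B) C Z) (hq : q ∉ Z) : Cl B C Z :=
  ⟨h.1, fun p hp => (List.mem_cons.1 (h.2.1 p hp)).resolve_left fun e => hq (e ▸ hp), h.2.2⟩

lemma Cl.ext (h : Cl B C Z) : Cl (q :: B) C Z :=
  ⟨h.1, fun p hp => List.mem_cons_of_mem _ (h.2.1 p hp), h.2.2⟩

lemma Cl.one (h : WF B C) (hp : p ∈ B) (hq : q ∈ B) (hZ : ∀ r ∈ Z, r ∈ B) :
    Cl ((a, insert B.length (p.2 ∪ q.2)) :: B) C (insert (a, insert B.length (p.2 ∪ q.2)) Z) ↔
      Cl B C (insert p (insert q Z)) := by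
  have key (k : ℕ) (hk : k < B.length) :
      (∃ r ∈ insert (a, insert B.length (p.2 ∪ q.2)) Z, k ∈ r.2) ↔
        ∃ r ∈ insert p (insert q Z), k ∈ r.2 := by
    simp [hk.ne, or_assoc]
  unfold Cl
  refine and_congr (by simp) (and_congr ?_ (forall₂_congr fun k hk => ?_))
  · simp only [Set.mem_insert_iff, forall_eq_or_imp, List.mem_cons, true_or, true_and, hp, hq]
    exact ⟨fun _ => hZ, fun _ r hr => .inr (hZ r hr)⟩
  · have := h.2 k hk
    rw [key k (by omega), key (k + 1) this]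

lemma Cl.two (h : WF B C) (hp : p ∈ B) (hZ : ∀ r ∈ Z, r ∈ B) :
    Cl ((b, insert (B.length + 1) p.2) :: (a, insert B.length p.2) :: B) (insert B.length C)
      (insert (b, insert (B.length + 1) p.2) (insert (a, insert B.length p.2) Z)) ↔
      Cl B C (insert p Z) := by
  have key (k : ℕ) (hk : k < B.length) :
      (∃ r ∈ insert (b, insert (B.length + 1) p.2) (insert (a, insert B.length p.2) Z), k ∈ r.2) ↔
        ∃ r ∈ insert p Z, k ∈ r.2 := by
    simp [hk.ne, show k ≠ B.length + 1 by omega]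
  unfold Cl
  refine and_congr (by simp) (and_congr ?_ ?_)
  · simp only [Set.mem_insert_iff, forall_eq_or_imp, List.mem_cons, true_or, true_and, hp, or_true]
    exact ⟨fun _ => hZ, fun _ r hr => .inr (.inr (hZ r hr))⟩
  · rw [Finset.forall_mem_insert, and_iff_right (by simp)]
    refine forall₂_congr fun k hk => ?_
    have := h.2 k hk
    rw [key k (by omega), key (k + 1) this]

lemma Cl.ext2 (h : WF B C) (hZ : Cl B C Z) {m m' : Node} :
    Cl (m' :: m :: B) (insert B.length C) Z := by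
  refine ⟨hZ.1, hZ.ext.ext.2.1, ?_⟩
  rw [Finset.forall_mem_insert]
  refine ⟨iff_of_false ?_ ?_, hZ.2.2⟩ <;> rintro ⟨r, hr, hk⟩ <;>
    have := h.1 r (hZ.2.1 r hr) _ hk <;> omega

/-- elimination for a non-critical node -/
lemma Cl.elim1 (h : WF B C) (hp : p ∈ B) (hq : q ∈ B) {m : Node}
    (hm : m = (a, insert B.length (p.2 ∪ q.2))) (hZ : Cl (m :: B) C Z) :
    Cl B C Z ∨ ∃ W, Z = insert m W ∧ (∀ r ∈ W, r ∈ B) ∧ Cl B C (insert p (insert q W)) := by
  by_cases e : m ∈ Z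
  · have hW : ∀ r ∈ Z \ {m}, r ∈ B := fun r hr =>
      (List.mem_cons.1 (hZ.2.1 r hr.1)).resolve_left hr.2
    have e' : Z = insert m (Z \ {m}) := by simp [e]
    refine .inr ⟨_, e', hW, (Cl.one (a := a) h hp hq hW).1 ?_⟩
    rw [← hm, ← e']
    exact hZ
  · exact .inl (hZ.old e)

/-- elimination for a critical pair -/
lemma Cl.elim2 (h : WF B C) (hp : p ∈ B) {m m' : Node}
    (hm : m = (a, insert B.length p.2)) (hm' : m' = (b, insert (B.length + 1) p.2))
    (hZ : Cl (m' :: m :: B) (insert B.length C) Z) :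
    Cl B C Z ∨ ∃ W, Z = insert m' (insert m W) ∧ (∀ r ∈ W, r ∈ B) ∧ Cl B C (insert p W) := by
  have k1 : (∃ r ∈ Z, B.length ∈ r.2) ↔ m ∈ Z := by
    refine ⟨fun ⟨r, hr, hk⟩ => ?_, fun e => ⟨m, e, by simp [hm]⟩⟩
    rcases hZ.2.1 r hr with _ | ⟨_, _ | ⟨_, hB⟩⟩
    · rw [hm', Finset.mem_insert] at hk
      exact absurd (h.1 p hp _ (hk.resolve_left (by omega))) (by omega)
    · exact hr
    · exact absurd (h.1 r hB _ hk) (by omega)
  have k2 : (∃ r ∈ Z, B.length + 1 ∈ r.2) ↔ m' ∈ Z := by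
    refine ⟨fun ⟨r, hr, hk⟩ => ?_, fun e => ⟨m', e, by simp [hm']⟩⟩
    rcases hZ.2.1 r hr with _ | ⟨_, _ | ⟨_, hB⟩⟩
    · exact hr
    · rw [hm, Finset.mem_insert] at hk
      exact absurd (h.1 p hp _ (hk.resolve_left (by omega))) (by omega)
    · exact absurd (h.1 r hB _ hk) (by omega)
  have k := hZ.2.2 B.length (by simp)
  rw [k1, k2] at k
  by_cases e : m ∈ Z
  · have hW : ∀ r ∈ Z \ {m', m}, r ∈ B := fun r hr => by
      have := hZ.2.1 r hr.1
      have := hr.2
      simp_all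
    have e' : Z = insert m' (insert m (Z \ {m', m})) := by
      ext r
      have := k.1 e
      by_cases r = m <;> by_cases r = m' <;> simp_all
    refine .inr ⟨_, e', hW, (Cl.two (a := a) (b := b) h hp hW).1 ?_⟩
    rw [← hm, ← hm', ← e']
    exact hZ
  · have := (hZ.old fun e' => e (k.2 e')).old e
    exact .inl ⟨this.1, this.2.1, fun k hk => this.2.2 k (by simp [hk])⟩

lemma Cl.crash (hp : p ∈ B) (hq : q ∈ B) : Par C (p.2 ∪ q.2) ↔ Cl B C {p, q} := by
  simp [Cl, Par, hp, hq]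

/-- truth at a world, worlds being the subsets of a two-element set -/
def sat (v : ℕ → Set Bool → Prop) : Fm → Set Bool → Prop
  | .var n, x => ∀ y, y ⊆ x → v n y
  | .neg a, x => ¬ sat v a xᶜ
  | .and a b, x => sat v a x ∧ sat v b x
  | .or a b, x => sat v a x ∨ sat v b x
  | .imp a b, x => ∀ y, sat v a y → sat v b (x ∪ y)

lemma sat_mono (v : ℕ → Set Bool → Prop) (a : Fm) :
    ∀ {x y : Set Bool}, y ⊆ x → sat v a x → sat v a y := by
  induction a with
  | var n => exact fun h H z hz => H z (hz.trans h)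
  | neg a ih => exact fun h H K => H (ih (Set.compl_subset_compl.2 h) K)
  | and a b ia ib => exact fun h H => ⟨ia h H.1, ib h H.2⟩
  | or a b ia ib => exact fun h H => H.imp (ia h) (ib h)
  | imp a b ia ib => exact fun h H z hz => ib (Set.union_subset_union_left _ h) (H z hz)

def Inv (v : ℕ → Set Bool → Prop) (B : List Node) (C : Finset ℕ) (w : Node → Set Bool) : Prop :=
  WF B C ∧ (∀ p ∈ B, sat v p.1 (w p)) ∧ ∀ Z, Cl B C Z → ∀ g, ∃ p ∈ Z, g ∈ w p

open Classical in
lemma Inv.one {v} {w : Node → Set Bool} (h : Inv v B C w) (hp : p ∈ B) (hq : q ∈ B)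
    (ha : sat v a (w p ∪ w q)) : ∃ w', (∀ r ∈ B, w' r = w r) ∧
      Inv v ((a, insert B.length (p.2 ∪ q.2)) :: B) C w' := by
  have hw : ∀ r ∈ B, Function.update w (a, insert B.length (p.2 ∪ q.2)) (w p ∪ w q) r = w r :=
    fun r hr => Function.update_of_ne (fun e => h.1.notMem le_rfl (e ▸ hr)) _ _
  refine ⟨_, hw, h.1.one hp hq, ?_, fun Z hZ g => ?_⟩
  · rintro r (_ | ⟨_, hr⟩)
    · simpa using ha
    · rw [hw r hr]; exact h.2.1 r hr
  · rcases hZ.elim1 h.1 hp hq rfl with H | ⟨W, rfl, hW, H⟩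
    · obtain ⟨r, hr, hg⟩ := h.2.2 Z H g
      exact ⟨r, hr, by rwa [hw r (H.2.1 r hr)]⟩
    · obtain ⟨r, rfl | rfl | hr, hg⟩ := h.2.2 _ H g
      · exact ⟨_, .inl rfl, by simp [hg]⟩
      · exact ⟨_, .inl rfl, by simp [hg]⟩
      · exact ⟨r, .inr hr, by rwa [hw r (hW r hr)]⟩

lemma Inv.one' {v} {w : Node → Set Bool} {T} (h : Inv v B C w) (hp : (b, T) ∈ B)
    (ha : sat v a (w (b, T))) : ∃ w', (∀ r ∈ B, w' r = w r) ∧
      Inv v ((a, insert B.length T) :: B) C w' := by
  simpa using h.one (a := a) hp hp (by simpa using ha)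

open Classical in
lemma Inv.two {v} {w : Node → Set Bool} (h : Inv v B C w) (hp : p ∈ B) {x y : Set Bool}
    (ha : sat v a x) (hb : sat v b y) (hxy : w p ⊆ x ∪ y) : ∃ w',
      Inv v ((b, insert (B.length + 1) p.2) :: (a, insert B.length p.2) :: B)
        (insert B.length C) w' := by
  let w' := Function.update (Function.update w (a, insert B.length p.2) x)
    (b, insert (B.length + 1) p.2) y
  have hw : ∀ r ∈ B, w' r = w r := fun r hr =>
    (Function.update_of_ne (fun e => h.1.notMem (Nat.le_succ _) (e ▸ hr)) _ _).trans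
      (Function.update_of_ne (fun e => h.1.notMem le_rfl (e ▸ hr)) _ _)
  have h2 : w' (b, insert (B.length + 1) p.2) = y := by simp [w']
  have h1 : w' (a, insert B.length p.2) = x := by
    refine (Function.update_of_ne (fun e => ?_) _ _).trans (by simp)
    have : B.length + 1 ∈ insert B.length p.2 := by rw [(Prod.mk.inj e).2]; simp
    rw [Finset.mem_insert] at this
    exact absurd (h.1.1 p hp _ (this.resolve_left (by omega))) (by omega)
  refine ⟨w', h.1.two hp, ?_, fun Z hZ g => ?_⟩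
  · rintro r (_ | ⟨_, _ | ⟨_, hr⟩⟩)
    · rwa [h2]
    · rwa [h1]
    · rw [hw r hr]; exact h.2.1 r hr
  · rcases hZ.elim2 h.1 hp rfl rfl with H | ⟨W, rfl, hW, H⟩
    · obtain ⟨r, hr, hg⟩ := h.2.2 Z H g
      exact ⟨r, hr, by rwa [hw r (H.2.1 r hr)]⟩
    · obtain ⟨r, rfl | hr, hg⟩ := h.2.2 _ H g
      · rcases hxy hg with hg | hg
        · exact ⟨_, .inr (.inl rfl), by rwa [h1]⟩
        · exact ⟨_, .inl rfl, by rwa [h2]⟩
      · exact ⟨r, .inr (.inr hr), by rwa [hw r (hW r hr)]⟩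

lemma Inv.root {v} (h : ¬ sat v a ∅) : Inv v [(.neg a, {0})] ∅ fun _ => Set.univ :=
  ⟨WF.root _, fun _ hp => by rw [List.mem_singleton.1 hp]; simpa only [sat, Set.compl_univ] using h,
    fun _ hZ _ => hZ.1.imp fun _ hp => ⟨hp, trivial⟩⟩

theorem sound0 {rc : Prop} (v : ℕ → Set Bool → Prop) (H : Closes Par rc B C) :
    ∀ w, ¬ Inv v B C w := by
  induction H with
  | crash hp hq hz =>
    intro w h
    refine h.2.1 _ hq (sat_mono v _ (fun g hg => ?_) (h.2.1 _ hp))
    obtain ⟨r, rfl | rfl, hr⟩ := h.2.2 _ ((Cl.crash hp hq).1 hz) g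
    · exact hr
    · exact absurd hr hg
  | conj hp _ ih =>
    intro w h
    obtain ⟨w1, e1, h1⟩ := h.one' hp (h.2.1 _ hp).1
    obtain ⟨w2, -, h2⟩ := h1.one' (List.mem_cons_of_mem _ hp) (e1 _ hp ▸ (h.2.1 _ hp).2)
    exact ih _ h2
  | nor hp _ ih =>
    intro w h
    obtain ⟨w1, e1, h1⟩ := h.one' (a := .neg _) hp (not_or.1 (h.2.1 _ hp)).1
    obtain ⟨w2, -, h2⟩ := h1.one' (a := .neg _) (List.mem_cons_of_mem _ hp)
      (e1 _ hp ▸ (not_or.1 (h.2.1 _ hp)).2)
    exact ih _ h2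
  | dn hp _ ih =>
    intro w h
    obtain ⟨w1, -, h1⟩ := h.one' hp (by simpa [sat] using h.2.1 _ hp)
    exact ih _ h1
  | nand hp _ _ i1 i2 =>
    intro w h
    rcases not_and_or.1 (h.2.1 _ hp) with k | k
    · obtain ⟨w1, -, h1⟩ := h.one' (a := .neg _) hp k
      exact i1 _ h1
    · obtain ⟨w1, -, h1⟩ := h.one' (a := .neg _) hp k
      exact i2 _ h1
  | disj hp _ _ i1 i2 =>
    intro w h
    rcases h.2.1 _ hp with k | k
    · obtain ⟨w1, -, h1⟩ := h.one' hp k
      exact i1 _ h1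
    · obtain ⟨w1, -, h1⟩ := h.one' hp k
      exact i2 _ h1
  | mp hp hq _ ih =>
    intro w h
    obtain ⟨w1, -, h1⟩ := h.one hp hq (Set.union_comm _ _ ▸ h.2.1 _ hq _ (h.2.1 _ hp))
    exact ih _ h1
  | @cc B C a b T hp _ ih =>
    intro w h
    have := h.2.1 _ hp
    simp only [sat, not_forall] at this
    obtain ⟨y, hy, k⟩ := this
    obtain ⟨w1, h1⟩ := h.two (b := .neg b) (y := ((w (.neg (.imp a b), T))ᶜ ∪ y)ᶜ) hp hy
      (by simpa only [sat, compl_compl] using k)
      (fun g hg => by by_cases g ∈ y <;> simp_all)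
    exact ih _ h1
  | @recu B C a b T _ hp _ _ i1 i2 =>
    intro w h
    have k : sat v (.imp a b) ∅ := by_contra fun k => i1 _ (Inv.root k)
    obtain ⟨w1, -, h1⟩ := h.one' hp (by simpa using k _ (h.2.1 _ hp))
    exact i2 _ h1

theorem sound {rc : Prop} (v : ℕ → Set Bool → Prop) (H : HasTree Par rc a) : sat v a ∅ :=
  by_contra fun k => sound0 v H _ (Inv.root k)

lemma sat_const {v : ℕ → Set Bool → Prop} {g : Bool} (a : Fm)
    (h : ∀ n ∈ letters a, ∀ y, v n y ↔ g ∉ y) : ∀ x, sat v a x ↔ g ∉ x := by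
  induction a with
  | var n =>
    exact fun x => ⟨fun H => (h n (by simp [letters]) x).1 (H x le_rfl),
      fun H y hy => (h n (by simp [letters]) y).2 fun k => H (hy k)⟩
  | neg a ih => intro x; simp [sat, ih h]
  | and a b ia ib =>
    intro x
    simp [sat, ia fun n hn => h n (by simp [letters, hn]), ib fun n hn => h n (by simp [letters, hn])]
  | or a b ia ib =>
    intro x
    simp [sat, ia fun n hn => h n (by simp [letters, hn]), ib fun n hn => h n (by simp [letters, hn])]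
  | imp a b ia ib =>
    intro x
    simp only [sat, ia fun n hn => h n (by simp [letters, hn]),
      ib fun n hn => h n (by simp [letters, hn]), Set.mem_union, not_or]
    exact ⟨fun H => (H ∅ (by simp)).1, fun H y hy => ⟨H, hy⟩⟩

theorem sharing {rc : Prop} (H : HasTree Par rc (.imp a b)) : ∃ n, n ∈ letters a ∧ n ∈ letters b := by
  by_contra k
  push Not at k
  have := sound (fun n y => decide (n ∈ letters a) ∉ y) H {false}
  rw [sat_const (g := true) a fun n hn y => by simp [hn],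
    sat_const (g := false) b fun n hn y => by simp [show n ∉ letters a from fun h => k n h hn]] at this
  simp at this

end Pool.Agent.H.MP_d84959_lc
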