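import Mathlib

namespace Pool.Agent.H.MP_d84959_lc

/-- formulae -/
inductive Fm : Type
  | var (n : ℕ)
  | neg (a : Fm)
  | and (a b : Fm)
  | or (a b : Fm)
  | imp (a b : Fm)

/-- parity of a trace `T`; the critical pairs of the branch sit at positions `k, k + 1`, `k ∈ C` -/
def Par (C T : Finset ℕ) : Prop := ∀ k ∈ C, (k ∈ T ↔ k + 1 ∈ T)

/-- A branch is the list of its nodes, latest first; a node is a formula with its trace, a set of
positions. `Closes ok rc B C`: the branch can be continued to a finite tree all of whose branches
have a crash-pair whose trace satisfies `ok`; the recursive rule may be used if `rc` holds. -/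
inductive Closes (ok : Finset ℕ → Finset ℕ → Prop) (rc : Prop) :
    List (Fm × Finset ℕ) → Finset ℕ → Prop
  | crash {B C z T U} : (z, T) ∈ B → (.neg z, U) ∈ B → ok C (T ∪ U) → Closes ok rc B C
  | conj {B C a b T} : (.and a b, T) ∈ B →
      Closes ok rc ((b, insert (B.length + 1) T) :: (a, insert B.length T) :: B) C →
      Closes ok rc B C
  | nor {B C a b T} : (.neg (.or a b), T) ∈ B →
      Closes ok rc ((.neg b, insert (B.length + 1) T) :: (.neg a, insert B.length T) :: B) C →
      Closes ok rc B C
  | dn {B C a T} : (.neg (.neg a), T) ∈ B →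
      Closes ok rc ((a, insert B.length T) :: B) C → Closes ok rc B C
  | nand {B C a b T} : (.neg (.and a b), T) ∈ B →
      Closes ok rc ((.neg a, insert B.length T) :: B) C →
      Closes ok rc ((.neg b, insert B.length T) :: B) C → Closes ok rc B C
  | disj {B C a b T} : (.or a b, T) ∈ B →
      Closes ok rc ((a, insert B.length T) :: B) C →
      Closes ok rc ((b, insert B.length T) :: B) C → Closes ok rc B C
  | mp {B C a b T U} : (a, T) ∈ B → (.imp a b, U) ∈ B →
      Closes ok rc ((b, insert B.length (T ∪ U)) :: B) C → Closes ok rc B C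
  | cc {B C a b T} : (.neg (.imp a b), T) ∈ B →
      Closes ok rc ((.neg b, insert (B.length + 1) T) :: (a, insert B.length T) :: B)
        (insert B.length C) → Closes ok rc B C
  | recu {B C a b T} : rc → (a, T) ∈ B → Closes ok rc [(.neg (.imp a b), {0})] ∅ →
      Closes ok rc ((b, insert B.length T) :: B) C → Closes ok rc B C

/-- `φ` has a truth-tree, with root `¬φ` at position `0` -/
def HasTree (ok : Finset ℕ → Finset ℕ → Prop) (rc : Prop) (φ : Fm) : Prop :=
  Closes ok rc [(.neg φ, {0})] ∅

/-- the sentence letters of a formula -/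
def letters : Fm → Finset ℕ
  | .var n => {n}
  | .neg a => letters a
  | .and a b => letters a ∪ letters b
  | .or a b => letters a ∪ letters b
  | .imp a b => letters a ∪ letters b

end Pool.Agent.H.MP_d84959_lc
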